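import Pool.Agent.H39.OD.Targets

/-!
# Board odp_modules, row DLS (helper79): lengths of the diagonals
-/

set_option autoImplicit false

namespace Pool.Agent.H79.OD

open Pool.Agent.H57.CP Pool.Agent.H39.TO Pool.Agent.H39.OD

theorem ch_symm (x y : H3) : ch x y = ch y x := by unfold ch mk; ring

theorem iso_closure {X : Set (Equiv.Perm H3)} (hX : ∀ g ∈ X, IsIso g) :
    ∀ g ∈ Subgroup.closure X, IsIso g := by
  intro g hg
  induction hg using Subgroup.closure_induction with
  | mem x hx => exact hX x hx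
  | one => exact fun _ _ => rfl
  | mul x y _ _ hx hy =>
    intro z w
    rw [Equiv.Perm.mul_apply, Equiv.Perm.mul_apply, hx, hy]
  | inv x _ hx =>
    intro z w
    rw [← hx (x⁻¹ z) (x⁻¹ w)]
    simp

theorem pair_eq {v x w : H3} (hw : w ≠ v) (h : ({v, x} : Set H3) = {v, w}) : x = w := by
  have h1 : w ∈ ({v, x} : Set H3) := by rw [h]; simp
  rcases h1 with h1 | h1
  · exact absurd h1 hw
  · exact (Set.mem_singleton_iff.1 h1).symm

theorem dls_core {v : H3} {r c g : Equiv.Perm H3} {x y z : H3} (hg : IsIso g)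
    (hcl : ∀ k ∈ Subgroup.closure {r, c}, IsIso k) (cv : c v = v)
    (rv : r v ≠ v)
    (hinc : {e | e ∈ fc r c {v, r v} ∧ v ∈ e} = {{v, r v}, {v, c (r v)}})
    (h1 : ({y, x} : Set H3) ∈ (Set.image g) '' fc r c {v, r v})
    (h2 : ({y, z} : Set H3) ∈ (Set.image g) '' fc r c {v, r v}) (hxz : x ≠ z) :
    ch x z = ch (r v) (c (r v)) := by
  obtain ⟨e1, ⟨k1, hk1, he1⟩, h1⟩ := h1
  obtain ⟨e2, ⟨k2, hk2, he2⟩, h2⟩ := h2
  have hr : r ∈ Subgroup.closure ({r, c} : Set (Equiv.Perm H3)) :=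
    Subgroup.subset_closure (by simp)
  -- the vertex
  obtain ⟨k, hk, hky⟩ : ∃ k ∈ Subgroup.closure ({r, c} : Set (Equiv.Perm H3)),
      y = g (k v) := by
    have hy : y ∈ g '' e1 := by
      rw [h1]
      simp
    obtain ⟨w, hw, hwy⟩ := hy
    rw [he1] at hw
    obtain ⟨t, ht, htw⟩ := hw
    rcases ht with ht | ht
    · exact ⟨k1, hk1, by rw [← hwy, ← htw, ht]⟩
    · rw [Set.mem_singleton_iff] at ht
      exact ⟨k1 * r, mul_mem hk1 hr, by rw [← hwy, ← htw, ht, Equiv.Perm.mul_apply]⟩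
  set m : Equiv.Perm H3 := (g * k)⁻¹ with hm
  have hmy : m y = v := by
    rw [hm, hky, ← Equiv.Perm.mul_apply]
    simp
  have hmiso : IsIso m := by
    intro p q
    have hgk : IsIso (g * k) := by
      intro p q
      rw [Equiv.Perm.mul_apply, Equiv.Perm.mul_apply, hg, hcl k hk]
    rw [← hgk (m p) (m q), hm]
    simp
  have key : ∀ (w : H3) (e : Set H3) (k' : Equiv.Perm H3),
      k' ∈ Subgroup.closure ({r, c} : Set (Equiv.Perm H3)) → e = k' '' {v, r v} →
      g '' e = {y, w} → m w = r v ∨ m w = c (r v) := by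
    intro w e k' hk' he hge
    have h3 : ({v, m w} : Set H3) ∈ {e | e ∈ fc r c {v, r v} ∧ v ∈ e} := by
      refine ⟨⟨k⁻¹ * k', mul_mem (inv_mem hk) hk', ?_⟩, by simp⟩
      have h4 : m '' {y, w} = {v, m w} := by rw [Set.image_pair, hmy]
      rw [← h4, ← hge, he, ← Set.image_comp, ← Set.image_comp]
      apply Set.image_congr
      intro p _
      simp [hm]
    rw [hinc] at h3
    rcases h3 with h3 | h3
    · exact Or.inl (pair_eq rv h3)
    · rw [Set.mem_singleton_iff] at h3
      refine Or.inr (pair_eq ?_ h3)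
      intro h5
      apply rv
      apply c.injective
      rw [h5, cv]
  have hx := key x e1 k1 hk1 he1 h1
  have hz := key z e2 k2 hk2 he2 h2
  have hne : m x ≠ m z := fun h => hxz (m.injective h)
  rw [← hmiso x z]
  rcases hx with hx | hx <;> rcases hz with hz | hz
  · exact absurd (hx.trans hz.symm) hne
  · rw [hx, hz]
  · rw [hx, hz, ch_symm]
  · exact absurd (hx.trans hz.symm) hne

theorem mem_fc_self {v : H3} {r c : Equiv.Perm H3} :
    ({v, r v} : Set H3) ∈ fc r c {v, r v} := ⟨1, one_mem _, by simp⟩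

theorem mem_fc_c {v : H3} {r c : Equiv.Perm H3} (cv : c v = v) :
    ({v, c (r v)} : Set H3) ∈ fc r c {v, r v} :=
  ⟨c, Subgroup.subset_closure (by simp), by rw [Set.image_pair, cv]⟩

theorem pf_DLS (hBEA : T_BEA) : T_DLS := by
  intro v r a b h
  obtain ⟨-, ha, hb, hra, hrb, -, -, -⟩ := hBEA v r a b h
  have hG : ∀ g ∈ Subgroup.closure ({r, a, b} : Set (Equiv.Perm H3)), IsIso g := by
    refine iso_closure ?_
    rintro g (rfl | rfl | rfl)
    exacts [h.ir, h.ia, h.ib]
  have hGa : ∀ g ∈ Subgroup.closure ({r, a} : Set (Equiv.Perm H3)), IsIso g := by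
    refine iso_closure ?_
    rintro g (rfl | rfl)
    exacts [h.ir, h.ia]
  have hGb : ∀ g ∈ Subgroup.closure ({r, b} : Set (Equiv.Perm H3)), IsIso g := by
    refine iso_closure ?_
    rintro g (rfl | rfl)
    exacts [h.ir, h.ib]
  have himg1 : ∀ f : Set (Set H3), (Set.image (1 : Equiv.Perm H3)) '' f = f := by
    intro f
    ext e
    simp
  ext d
  constructor
  · rintro ⟨f, ⟨g, hg, hf⟩, x, y, z, hxz, h1, h2, hd⟩
    rcases hf with hf | hf
    · left
      have hf' : f = (Set.image g) '' fc r a {v, r v} := hf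
      rw [hf'] at h1 h2
      rw [hd]
      exact dls_core (hG g hg) hGa h.av h.rv ha h1 h2 hxz
    · right
      have hf' : f = (Set.image g) '' fc r b {v, r v} := hf
      rw [hf'] at h1 h2
      rw [Set.mem_singleton_iff, hd]
      exact dls_core (hG g hg) hGb h.bv h.rv hb h1 h2 hxz
  · rintro (hd | hd)
    · refine ⟨fc r a {v, r v}, ⟨1, one_mem _, Or.inl ?_⟩, r v, v, a (r v), hra, mem_fc_self,
        mem_fc_c h.av, hd⟩
      exact (himg1 _).symm
    · rw [Set.mem_singleton_iff] at hd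
      refine ⟨fc r b {v, r v}, ⟨1, one_mem _, Or.inr ?_⟩, r v, v, b (r v), hrb, mem_fc_self,
        mem_fc_c h.bv, hd⟩
      exact (himg1 _).symm

end Pool.Agent.H79.OD
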