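import Pool.Agent.H39.OD.Targets
import Pool.Agent.H20.TOH.RFD

/-!
# Board odp_modules, row RFD2 (helper79): the reflection data with the action on the vertices
-/

set_option autoImplicit false

namespace Pool.Agent.H79.OD

open Pool.Agent.H57.CP Pool.Agent.H39.TO Pool.Agent.H39.OD Pool.Agent.H20.TOH.R

theorem pf_RFD2 (hRFM : T_RFM) (hSPV : T_SPV) (hBAL : T_BAL) (hMKI : T_MKI) (hLOR : T_LOR) :
    T_RFD2 := by
  intro K v v1 f f' a b c p q hK D hp hp3 hq
  obtain ⟨n0, n1, n2, u0, u1, u2, ra, rb, rc, hsp⟩ := hRFM K v v1 f f' a b c p q hK D hp hp3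
  have ra' : RV K.V a (refl n0) := ra
  have rb' : RV K.V b (refl n1) := rb
  have rc' : RV K.V c (refl n2) := rc
  have hvV : v ∈ K.V := by rw [D.eV]; exact ⟨1, one_mem _, rfl⟩
  have hsa := D.sa.v
  have hsb := D.sb.v
  have hsc := D.sc.v
  have hY : ∀ A ∈ ({refl n0, refl n1, refl n2} : Set (Module.End ℝ V4)), A * A = 1 := by
    rintro g (rfl | rfl | rfl)
    exacts [refl_sq u0, refl_sq u1, refl_sq u2]
  have hXV : ∀ g ∈ ({a, b, c} : Set (Equiv.Perm H3)), ∀ x, g x ∈ K.V ↔ x ∈ K.V := by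
    rintro g (rfl | rfl | rfl)
    exacts [hsa, hsb, hsc]
  have hXY : ∀ g ∈ ({a, b, c} : Set (Equiv.Perm H3)),
      ∃ A ∈ ({refl n0, refl n1, refl n2} : Set (Module.End ℝ V4)), RV K.V g A := by
    rintro g (rfl | rfl | rfl)
    · exact ⟨_, Or.inl rfl, ra'⟩
    · exact ⟨_, Or.inr (Or.inl rfl), rb'⟩
    · exact ⟨_, Or.inr (Or.inr rfl), rc'⟩
  have hYX : ∀ A ∈ ({refl n0, refl n1, refl n2} : Set (Module.End ℝ V4)),
      ∃ g ∈ ({a, b, c} : Set (Equiv.Perm H3)), RV K.V g A := by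
    rintro g (rfl | rfl | rfl)
    · exact ⟨a, Or.inl rfl, ra'⟩
    · exact ⟨b, Or.inr (Or.inl rfl), rb'⟩
    · exact ⟨c, Or.inr (Or.inr rfl), rc'⟩
  have hsub : Gam n0 n1 n2 ≤ Submonoid.closure {r | ∃ n : V4, mk n n = -1 ∧
      n ∈ Submodule.span ℝ (Subtype.val '' K.V) ∧ r = refl n} := by
    apply Submonoid.closure_mono
    rintro g (rfl | rfl | rfl)
    · exact ⟨n0, u0, hsp 0, rfl⟩
    · exact ⟨n1, u1, hsp 1, rfl⟩
    · exact ⟨n2, u2, hsp 2, rfl⟩
  have uniq1 : ∀ A ∈ Gam n0 n1 n2, (∀ x ∈ K.V, A x.1 = x.1) → A = 1 := fun A hA h =>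
    hSPV K.V A ⟨v, hvV⟩ (hsub hA) h
  have uniq : ∀ A ∈ Gam n0 n1 n2, ∀ B ∈ Gam n0 n1 n2, (∀ x ∈ K.V, A x.1 = B x.1) → A = B := by
    intro A hA B hB h
    obtain ⟨B', hB', h1, h2⟩ := sub_inv hY hB
    have h3 : B' * A = 1 := by
      apply uniq1 _ (mul_mem hB' hA)
      intro x hx
      rw [Module.End.mul_apply, h x hx, ← Module.End.mul_apply, h2]
      rfl
    calc A = (B * B') * A := by rw [h1, one_mul]
      _ = B := by rw [mul_assoc, h3, mul_one]
  have m0 : refl n0 ∈ Gam n0 n1 n2 := Submonoid.subset_closure (Or.inl rfl)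
  have m1 : refl n1 ∈ Gam n0 n1 n2 := Submonoid.subset_closure (Or.inr (Or.inl rfl))
  have m2 : refl n2 ∈ Gam n0 n1 n2 := Submonoid.subset_closure (Or.inr (Or.inr rfl))
  have hv0 : mk v.1 n0 ≠ 0 := by
    intro h
    apply D.ne
    rw [← D.av]
    apply Subtype.ext
    rw [← ra v hvV, refl_fix (by rw [mk_comm]; exact h)]
  have hv1 : mk v.1 n1 = 0 := by
    rw [mk_comm]
    apply fix_orth u1
    rw [rb v hvV, D.bv]
  have hv2 : mk v.1 n2 = 0 := by
    rw [mk_comm]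
    apply fix_orth u2
    rw [rc v hvV, D.cv]
  have hli2 : LinearIndependent ℝ ![n1, n2] := indep_two D hq u1 u2 rb' rc'
  have hspan : ∀ y ∈ Submodule.span ℝ (Set.range ![n1, n2]), mk v.1 y = 0 := by
    intro y hy
    induction hy using Submodule.span_induction with
    | mem y hy =>
      obtain ⟨i, rfl⟩ := hy
      fin_cases i
      · exact hv1
      · exact hv2
    | zero => exact mk_zero_right _
    | add x y _ _ hx hy => rw [mk_add_right, hx, hy, add_zero]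
    | smul t x _ hx => rw [mk_smul_right, hx, mul_zero]
  have hli : LinearIndependent ℝ ![n0, n1, n2] :=
    linearIndependent_finCons.2 ⟨hli2, fun h => hv0 (hspan n0 h)⟩
  have ordl : ∀ (A : Module.End ℝ V4) (g : Equiv.Perm H3) (m : ℕ), A ∈ Gam n0 n1 n2 →
      RV K.V g A → (∀ x ∈ K.V, g x ∈ K.V) → (A ^ m = 1 ↔ ∀ x ∈ K.V, (g ^ m) x = x) := by
    intro A g m hA hg hgV
    obtain ⟨h1, h2⟩ := RV_pow hgV hg m
    constructor
    · intro h x hx
      apply Subtype.ext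
      rw [← h2 x hx, h]
      rfl
    · intro h
      apply uniq1 _ (pow_mem hA m)
      intro x hx
      rw [h2 x hx, h x hx]
  have rab : RV K.V (a * b) (refl n0 * refl n1) := by
    intro x hx
    rw [Module.End.mul_apply, rb x hx, ra _ ((hsb x).2 hx)]
    rfl
  have rac : RV K.V (a * c) (refl n0 * refl n2) := by
    intro x hx
    rw [Module.End.mul_apply, rc x hx, ra _ ((hsc x).2 hx)]
    rfl
  have rbc : RV K.V (b * c) (refl n1 * refl n2) := by
    intro x hx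
    rw [Module.End.mul_apply, rc x hx, rb _ ((hsc x).2 hx)]
    rfl
  have hdiv : ∀ (g : Equiv.Perm H3), (∀ m : ℕ, (g ^ m) v = v ↔ p ∣ m) →
      (∀ x ∈ K.V, (g ^ p) x = x) → ∀ m : ℕ, (∀ x ∈ K.V, (g ^ m) x = x) ↔ p ∣ m := by
    intro g h1 h2 m
    constructor
    · intro h
      exact (h1 m).1 (h v hvV)
    · rintro ⟨j, rfl⟩ x hx
      rw [pow_mul]
      exact Equiv.Perm.pow_apply_eq_self_of_apply_eq_self (h2 x hx) j
  obtain ⟨n, hn⟩ := D.q2
  have hqn : q / 2 = n := by omega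
  have hn2 : 2 ≤ n := by omega
  have ho3 : ∀ m : ℕ, (refl n1 * refl n2) ^ m = 1 ↔ q / 2 ∣ m := by
    intro m
    rw [ordl _ (b * c) m (mul_mem m1 m2) rbc (fun x hx => (hsb _).2 ((hsc x).2 hx)), D.o3 m, hqn,
      hn, Nat.mul_dvd_mul_iff_left (by norm_num)]
  -- the stabiliser is finite
  have hG3 : ∀ A ∈ Gam n0 n1 n2, ∃ g ∈ G3 a b c, (∀ x, g x ∈ K.V ↔ x ∈ K.V) ∧ RV K.V g A :=
    fun A hA => words' hXV hYX hA
  have hstab : {s | s ∈ Gam n0 n1 n2 ∧ s v.1 = v.1}.Finite := by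
    refine (dih_fin (refl n1) (refl n2) n (by omega) (refl_sq u1) (refl_sq u2)
      ((ho3 n).2 (by rw [hqn]))).subset ?_
    rintro s ⟨hs, hsv⟩
    obtain ⟨g, hg, -, hgs⟩ := hG3 s hs
    have hgv : g v = v := by
      apply Subtype.ext
      rw [← hgs v hvV, hsv]
    obtain ⟨h, hh, hgh⟩ := D.st g hg hgv
    obtain ⟨-, B, hB, hhB⟩ := words (V := K.V) (X := {b, c}) (Y := {refl n1, refl n2}) (by
      rintro g (rfl | rfl)
      exacts [hsb, hsc]) (by
      rintro g (rfl | rfl)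
      · exact ⟨_, Or.inl rfl, rb'⟩
      · exact ⟨_, Or.inr rfl, rc'⟩) (by
      rintro g (rfl | rfl)
      exacts [refl_sq u1, refl_sq u2]) hh
    have hBG : B ∈ Gam n0 n1 n2 := by
      refine Submonoid.closure_mono ?_ hB
      rintro g (rfl | rfl)
      · exact Or.inr (Or.inl rfl)
      · exact Or.inr (Or.inr rfl)
    have : s = B := by
      apply uniq s hs B hBG
      intro x hx
      rw [hgs x hx, hhB x hx, hgh x hx]
    rw [this]
    exact hB
  -- the vertices are separated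
  have hiso : ∀ g ∈ G3 a b c, IsIso g := by
    intro g hg
    unfold G3 at hg
    induction hg using Subgroup.closure_induction with
    | mem x hx =>
      rcases hx with rfl | rfl | rfl
      exacts [D.sa.iso, D.sb.iso, D.sc.iso]
    | one => exact fun _ _ => rfl
    | mul x y _ _ hx hy =>
      intro z w
      rw [Equiv.Perm.mul_apply, Equiv.Perm.mul_apply, hx, hy]
    | inv x _ hx =>
      intro z w
      rw [← hx (x⁻¹ z) (x⁻¹ w)]
      simp
  obtain ⟨ε, hε, hdis⟩ := hK.dis v hvV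
  have hsep : ∀ x ∈ K.V, ∀ y ∈ K.V, x ≠ y → 1 + ε ≤ ch x y := by
    intro x hx y hy hxy
    have hx' := hx
    rw [D.eV] at hx'
    obtain ⟨g, hg, rfl⟩ := hx'
    have hgV := (words hXV hXY hY (inv_mem hg)).1
    rw [← hiso _ (inv_mem hg) (g v) y]
    have h4 : g⁻¹ (g v) = v := by simp
    rw [h4]
    apply hdis
    · exact (hgV y).2 hy
    · intro h5
      apply hxy
      rw [← h5]
      simp
  have hpro : ∀ R : ℝ, {g | g ∈ Gam n0 n1 n2 ∧ mk v.1 (g v.1) ≤ R}.Finite := by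
    intro R
    have hfin := hBAL K.V ε hε hsep v R
    have hfib : ∀ x : H3, {g | g ∈ Gam n0 n1 n2 ∧ g v.1 = x.1}.Finite := by
      intro x
      by_cases hex : ∃ g0 ∈ Gam n0 n1 n2, g0 v.1 = x.1
      · obtain ⟨g0, hg0, hg0x⟩ := hex
        obtain ⟨g0', hg0', h1, h2⟩ := sub_inv hY hg0
        refine (hstab.image (fun s => g0 * s)).subset ?_
        rintro g ⟨hg, hgx⟩
        refine ⟨g0' * g, ⟨mul_mem hg0' hg, ?_⟩, ?_⟩
        · rw [Module.End.mul_apply, hgx, ← hg0x, ← Module.End.mul_apply, h2]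
          rfl
        · simp only
          rw [← mul_assoc, h1, one_mul]
      · have he : {g | g ∈ Gam n0 n1 n2 ∧ g v.1 = x.1} = ∅ :=
          Set.eq_empty_of_forall_notMem (fun g hg => hex ⟨g, hg.1, hg.2⟩)
        rw [he]
        exact Set.finite_empty
    refine (hfin.biUnion (t := fun x : H3 => {g | g ∈ Gam n0 n1 n2 ∧ g v.1 = x.1})
      (fun x _ => hfib x)).subset ?_
    rintro g ⟨hg, hgR⟩
    obtain ⟨γ, hγ, hγV, hγg⟩ := hG3 g hg
    rw [Set.mem_iUnion₂]
    refine ⟨γ v, ⟨(hγV v).2 hvV, ?_⟩, hg, hγg v hvV⟩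
    unfold ch
    rw [← hγg v hvV]
    exact hgR
  -- the angles are different
  have hne : (mk n0 n1) ^ 2 ≠ (mk n0 n2) ^ 2 := by
    intro hsq
    obtain ⟨n2', hn2', h2u, h2v, h2d⟩ : ∃ n2' : V4, (n2 = n2' ∨ n2 = -n2') ∧ mk n2' n2' = -1 ∧
        mk v.1 n2' = 0 ∧ mk n0 n1 = mk n0 n2' := by
      rcases sq_eq_sq_iff_eq_or_eq_neg.mp hsq with h | h
      · exact ⟨n2, Or.inl rfl, u2, hv2, h⟩
      · refine ⟨-n2, Or.inr (neg_neg _).symm, ?_, ?_, ?_⟩
        · rw [mk_neg_right, mk_comm, mk_neg_right, u2]; ring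
        · rw [mk_neg_right, hv2, neg_zero]
        · rw [mk_neg_right]; exact h
    have hd : n1 - n2' ≠ 0 := by
      intro h0
      have h1 : n1 = n2' := sub_eq_zero.mp h0
      have h3 := (LinearIndependent.pair_iff.mp hli2)
      rcases hn2' with h | h
      · have := (h3 1 (-1) (by rw [h1, h]; simp)).1
        norm_num at this
      · have := (h3 1 1 (by rw [h1, h]; simp)).1
        norm_num at this
    have hdv : mk v.1 (n1 - n2') = 0 := by rw [mk_sub_right, hv1, h2v, sub_zero]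
    have hdd := neg_of_orth v _ hdv hd
    have hd1 : mk (n1 - n2') (n1 - n2') = 2 * mk (n1 - n2') n1 := by
      rw [mk_sub_right, mk_comm (n1 - n2') n1, mk_comm (n1 - n2') n2', mk_sub_right, mk_sub_right,
        u1, h2u, mk_comm n2' n1]
      ring
    obtain ⟨N, hN, hNN⟩ : ∃ N : ℝ, 0 < N ∧ N * N = -mk (n1 - n2') (n1 - n2') :=
      ⟨Real.sqrt (-mk (n1 - n2') (n1 - n2')), Real.sqrt_pos.2 (by linarith),
        Real.mul_self_sqrt (by linarith)⟩
    have hM : mk (N⁻¹ • (n1 - n2')) (N⁻¹ • (n1 - n2')) = -1 := by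
      rw [mk_smul_right, mk_comm, mk_smul_right]
      have : mk (n1 - n2') (n1 - n2') = -(N * N) := by linarith
      rw [this]
      field_simp
    have hMx : ∀ x, mk (N⁻¹ • (n1 - n2')) x = N⁻¹ * mk (n1 - n2') x := by
      intro x
      rw [mk_comm, mk_smul_right, mk_comm x]
    have hM0 : mk (N⁻¹ • (n1 - n2')) n0 = 0 := by
      rw [hMx, mk_comm, mk_sub_right, h2d, sub_self, mul_zero]
    have hMv : mk (N⁻¹ • (n1 - n2')) v.1 = 0 := by
      rw [hMx, mk_comm, hdv, mul_zero]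
    have hM12 : refl (N⁻¹ • (n1 - n2')) n1 = n2' := by
      rw [refl_eq, hMx, smul_smul]
      have h3 : 2 * (N⁻¹ * mk (n1 - n2') n1) * N⁻¹ = -1 := by
        have h4 : mk (n1 - n2') n1 = -(N * N) / 2 := by linarith
        rw [h4]
        field_simp
      rw [h3, neg_smul, one_smul]
      abel
    obtain ⟨μ, hμ, hext⟩ := hMKI _ (hLOR.2.2 _ hM).1
    refine sym_aux D u0 u1 u2 ra' rb' rc' hM hM0 hMv ?_ hμ hext
    rw [hM12]
    rcases hn2' with h | h
    · exact Or.inl h.symm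
    · right
      rw [h, neg_neg]
  refine ⟨n0, n1, n2, ⟨u0, u1, u2, hv0, hv1, hv2, hli,
    fun m => (ordl _ (a * b) m (mul_mem m0 m1) rab (fun x hx => (hsa _).2 ((hsb x).2 hx))).trans
      (hdiv _ D.o1 D.o1' m),
    fun m => (ordl _ (a * c) m (mul_mem m0 m2) rac (fun x hx => (hsa _).2 ((hsc x).2 hx))).trans
      (hdiv _ D.o2 D.o2' m),
    ho3, by omega, hne, hpro⟩, ra, rb, rc⟩

end Pool.Agent.H79.OD
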